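import Mathlib

/-! Linear algebra for MP_fbfa44_gt: the refined Kato inequality, ambient indices. -/

set_option autoImplicit false

namespace IdxLinK

open Finset

variable {ι : Type*} [Fintype ι]

/-- squared norm of a matrix -/
def n2 (A : ι → ι → ℝ) : ℝ := ∑ i, ∑ j, A i j ^ 2

/-- squared norm of a vector -/
def v2 (x : ι → ℝ) : ℝ := ∑ i, x i ^ 2

/-- inner product of vectors -/
def ip (x y : ι → ℝ) : ℝ := ∑ i, x i * y i

/-- the matrix applied to a vector -/
def ap (A : ι → ι → ℝ) (x : ι → ℝ) (i : ι) : ℝ := ∑ j, A i j * x j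

/-- squared norm of a 3-tensor -/
def n3 (T : ι → ι → ι → ℝ) : ℝ := ∑ i, ∑ j, ∑ k, T i j k ^ 2

/-- contraction of a 3-tensor with a matrix -/
def ct (T : ι → ι → ι → ℝ) (A : ι → ι → ℝ) (i : ι) : ℝ := ∑ j, ∑ k, T i j k * A j k

theorem v2_nonneg (x : ι → ℝ) : 0 ≤ v2 x := sum_nonneg fun _ _ => sq_nonneg _
theorem n2_nonneg (A : ι → ι → ℝ) : 0 ≤ n2 A :=
  sum_nonneg fun _ _ => sum_nonneg fun _ _ => sq_nonneg _
theorem n3_nonneg (T : ι → ι → ι → ℝ) : 0 ≤ n3 T :=
  sum_nonneg fun _ _ => sum_nonneg fun _ _ => sum_nonneg fun _ _ => sq_nonneg _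

theorem ip_self (x : ι → ℝ) : ip x x = v2 x := by
  unfold ip v2
  exact sum_congr rfl fun i _ => by ring

theorem ip_comm (x y : ι → ℝ) : ip x y = ip y x := by
  unfold ip
  exact sum_congr rfl fun i _ => by ring

/-- symmetric matrices are self-adjoint -/
theorem ip_ap {A : ι → ι → ℝ} (hA : ∀ i j, A i j = A j i) (x y : ι → ℝ) :
    ip x (ap A y) = ip (ap A x) y := by
  unfold ip ap
  simp only [mul_sum, sum_mul]
  rw [sum_comm]
  exact sum_congr rfl fun i _ => sum_congr rfl fun j _ => by rw [hA j i]; ring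

/-! ### Matrices -/

/-- inner product of matrices -/
def fr (A B : ι → ι → ℝ) : ℝ := ∑ i, ∑ j, A i j * B i j

/-- outer product -/
def ot (x y : ι → ℝ) (i j : ι) : ℝ := x i * y j

theorem fr_ot (A : ι → ι → ℝ) (x y : ι → ℝ) : fr A (ot x y) = ip x (ap A y) := by
  unfold fr ot ip ap
  simp only [mul_sum]
  exact sum_congr rfl fun i _ => sum_congr rfl fun j _ => by ring

theorem fr_ot_ot (x y z w : ι → ℝ) : fr (ot x y) (ot z w) = ip x z * ip y w := by
  unfold fr ot ip
  rw [sum_mul_sum]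
  exact sum_congr rfl fun i _ => sum_congr rfl fun j _ => by ring

theorem n2_ot (x y : ι → ℝ) : n2 (ot x y) = v2 x * v2 y := by
  rw [← ip_self x, ← ip_self y, ← fr_ot_ot]
  unfold n2 fr
  exact sum_congr rfl fun i _ => sum_congr rfl fun j _ => by ring

theorem fr_comm (A B : ι → ι → ℝ) : fr A B = fr B A := by
  unfold fr
  exact sum_congr rfl fun i _ => sum_congr rfl fun j _ => by ring

theorem fr_self (A : ι → ι → ℝ) : fr A A = n2 A := by
  unfold fr n2
  exact sum_congr rfl fun i _ => sum_congr rfl fun j _ => by ring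

theorem n2_expand (A B C D F : ι → ι → ℝ) (a e : ℝ) :
    n2 (fun i j => A i j - (a * B i j + C i j + D i j - e * F i j)) =
      n2 A + a ^ 2 * n2 B + n2 C + n2 D + e ^ 2 * n2 F - 2 * a * fr A B - 2 * fr A C -
        2 * fr A D + 2 * e * fr A F + 2 * a * fr B C + 2 * a * fr B D - 2 * a * e * fr F B +
        2 * fr C D - 2 * e * fr F C - 2 * e * fr F D := by
  unfold n2 fr
  simp only [mul_sum, ← sum_add_distrib, ← sum_sub_distrib]
  exact sum_congr rfl fun i _ => sum_congr rfl fun j _ => by ring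

/-- `A` is a symmetric traceless form on the image of the projection `P`, of dimension `m` -/
structure Tan (P A : ι → ι → ℝ) (m : ℝ) : Prop where
  pos : 0 < m
  psym : ∀ i j, P i j = P j i
  pp : ∀ i j, ∑ k, P i k * P k j = P i j
  ptr : ∑ i, P i i = m
  sym : ∀ i j, A i j = A j i
  pa : ∀ i j, ∑ k, P i k * A k j = A i j
  tr : ∑ i, A i i = 0

section tan

variable {P A : ι → ι → ℝ} {m : ℝ} (h : Tan P A m)

include h

theorem Tan.frPP : n2 P = m := by
  rw [← h.ptr]
  unfold n2
  refine sum_congr rfl fun i _ => ?_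
  rw [← h.pp i i]
  exact sum_congr rfl fun j _ => by rw [h.psym j i]; ring

theorem Tan.frAP : fr A P = 0 := by
  rw [← h.tr]
  unfold fr
  refine sum_congr rfl fun i _ => ?_
  rw [← h.pa i i]
  exact sum_congr rfl fun j _ => by rw [h.sym i j]; ring

/-- `P (A y) = A y` -/
theorem Tan.apPA (y : ι → ℝ) : ap P (ap A y) = ap A y := by
  funext i
  unfold ap
  simp only [mul_sum]
  rw [sum_comm]
  refine sum_congr rfl fun k _ => ?_
  rw [← h.pa i k, sum_mul]
  exact sum_congr rfl fun j _ => by ring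

/-- `A (P y) = A y` -/
theorem Tan.apAP (y : ι → ℝ) : ap A (ap P y) = ap A y := by
  funext i
  unfold ap
  simp only [mul_sum]
  rw [sum_comm]
  refine sum_congr rfl fun k _ => ?_
  rw [h.sym i k, ← h.pa k i, sum_mul]
  exact sum_congr rfl fun j _ => by rw [h.psym j k, h.sym i j]; ring

theorem Tan.apPP (y : ι → ℝ) : ap P (ap P y) = ap P y := by
  funext i
  unfold ap
  simp only [mul_sum]
  rw [sum_comm]
  refine sum_congr rfl fun k _ => ?_
  rw [← h.pp i k, sum_mul]
  exact sum_congr rfl fun j _ => by ring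

omit h in
theorem v2_smul (c : ℝ) (x : ι → ℝ) : v2 (fun i => c * x i) = c ^ 2 * v2 x := by
  unfold v2
  rw [mul_sum]
  exact sum_congr rfl fun i _ => by ring

omit h in
theorem ap_smul (A : ι → ι → ℝ) (c : ℝ) (x : ι → ℝ) :
    ap A (fun i => c * x i) = fun i => c * ap A x i := by
  funext i
  unfold ap
  rw [mul_sum]
  exact sum_congr rfl fun i _ => by ring

omit h in
theorem v2_eq_zero {x : ι → ℝ} (h : v2 x = 0) : x = 0 := by
  unfold v2 at h
  rw [sum_eq_zero_iff_of_nonneg fun i _ => sq_nonneg _] at h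
  funext i
  exact pow_eq_zero_iff (two_ne_zero) |>.1 (h i (mem_univ i))

end tan

/-! ### Tensors -/

/-- the symmetric traceless part of `y ⊗ A`, for `w = 2 A y / (m + 2)` -/
noncomputable def yt (P A : ι → ι → ℝ) (y w : ι → ℝ) (i j k : ι) : ℝ :=
  1 / 3 * (y i * A j k + y j * A i k + y k * A i j) -
    1 / 3 * (w i * P j k + w j * P i k + w k * P i j)

/-- a symmetric tensor whose trace with respect to `P` vanishes -/
structure Ten (P : ι → ι → ℝ) (T : ι → ι → ι → ℝ) : Prop where
  s1 : ∀ i j k, T i j k = T j i k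
  s2 : ∀ i j k, T i j k = T i k j
  tr : ∀ i, ∑ j, ∑ k, T i j k * P j k = 0

/-- inner product with a symmetric traceless tensor -/
theorem inner_yt {P : ι → ι → ℝ} {T : ι → ι → ι → ℝ} (hT : Ten P T) (A : ι → ι → ℝ)
    (y w : ι → ℝ) : ∑ i, ∑ j, ∑ k, T i j k * yt P A y w i j k = ip y (ct T A) := by
  have a1 : ∑ i, ∑ j, ∑ k, T i j k * (y i * A j k) = ip y (ct T A) := by
    unfold ip ct
    simp only [mul_sum]
    exact sum_congr rfl fun i _ => sum_congr rfl fun j _ => sum_congr rfl fun k _ => by ring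
  have a2 : ∑ i, ∑ j, ∑ k, T i j k * (y j * A i k) = ip y (ct T A) := by
    rw [← a1, sum_comm]
    exact sum_congr rfl fun i _ => sum_congr rfl fun j _ => sum_congr rfl fun k _ => by
      rw [hT.s1]
  have a3 : ∑ i, ∑ j, ∑ k, T i j k * (y k * A i j) = ip y (ct T A) := by
    rw [← a2]
    refine sum_congr rfl fun i _ => ?_
    rw [sum_comm]
    exact sum_congr rfl fun j _ => sum_congr rfl fun k _ => by rw [hT.s2]
  have b1 : ∑ i, ∑ j, ∑ k, T i j k * (w i * P j k) = 0 := by
    refine sum_eq_zero fun i _ => ?_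
    have e : ∑ j, ∑ k, T i j k * (w i * P j k) = w i * ∑ j, ∑ k, T i j k * P j k := by
      simp only [mul_sum]
      exact sum_congr rfl fun j _ => sum_congr rfl fun k _ => by ring
    rw [e, hT.tr, mul_zero]
  have b2 : ∑ i, ∑ j, ∑ k, T i j k * (w j * P i k) = 0 := by
    rw [← b1, sum_comm]
    exact sum_congr rfl fun i _ => sum_congr rfl fun j _ => sum_congr rfl fun k _ => by
      rw [hT.s1]
  have b3 : ∑ i, ∑ j, ∑ k, T i j k * (w k * P i j) = 0 := by
    rw [← b2]
    refine sum_congr rfl fun i _ => ?_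
    rw [sum_comm]
    exact sum_congr rfl fun j _ => sum_congr rfl fun k _ => by rw [hT.s2]
  have e : ∑ i, ∑ j, ∑ k, T i j k * yt P A y w i j k =
      1 / 3 * (∑ i, ∑ j, ∑ k, T i j k * (y i * A j k) + ∑ i, ∑ j, ∑ k, T i j k * (y j * A i k) +
        ∑ i, ∑ j, ∑ k, T i j k * (y k * A i j)) -
      1 / 3 * (∑ i, ∑ j, ∑ k, T i j k * (w i * P j k) +
        ∑ i, ∑ j, ∑ k, T i j k * (w j * P i k) + ∑ i, ∑ j, ∑ k, T i j k * (w k * P i j)) := by
    simp only [mul_sum, ← sum_add_distrib, ← sum_sub_distrib]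
    exact sum_congr rfl fun i _ => sum_congr rfl fun j _ => sum_congr rfl fun k _ => by
      unfold yt; ring
  rw [e, a1, a2, a3, b1, b2, b3]
  ring

section tan2

variable {P A : ι → ι → ℝ} {m : ℝ} (h : Tan P A m)

include h

/-- contraction of the symmetric traceless part with a symmetric form `B` -/
theorem sum_yt (y w : ι → ℝ) (B : ι → ι → ℝ) (hB : ∀ i j, B i j = B j i) (i : ι) :
    ∑ j, ∑ k, yt P A y w i j k * B j k =
      1 / 3 * (y i * fr A B + 2 * ap A (ap B y) i) -
      1 / 3 * (w i * fr P B + 2 * ap P (ap B w) i) := by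
  have hA := h.sym
  have hP := h.psym
  have e : ∑ j, ∑ k, yt P A y w i j k * B j k = 1 / 3 * (∑ j, ∑ k, y i * A j k * B j k +
      ∑ j, ∑ k, y j * A i k * B j k + ∑ j, ∑ k, y k * A i j * B j k) -
      1 / 3 * (∑ j, ∑ k, w i * P j k * B j k + ∑ j, ∑ k, w j * P i k * B j k +
        ∑ j, ∑ k, w k * P i j * B j k) := by
    simp only [mul_sum, ← sum_add_distrib, ← sum_sub_distrib]
    exact sum_congr rfl fun j _ => sum_congr rfl fun k _ => by unfold yt; ring
  have a1 : ∀ (C : ι → ι → ℝ) (z : ι → ℝ), ∑ j, ∑ k, z i * C j k * B j k = z i * fr C B := by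
    intro C z
    unfold fr
    simp only [mul_sum]
    exact sum_congr rfl fun j _ => sum_congr rfl fun k _ => by ring
  have a2 : ∀ (C : ι → ι → ℝ) (z : ι → ℝ), ∑ j, ∑ k, z j * C i k * B j k =
      ap C (ap B z) i := by
    intro C z
    unfold ap
    simp only [mul_sum]
    rw [sum_comm]
    exact sum_congr rfl fun j _ => sum_congr rfl fun k _ => by rw [hB k j]; ring
  have a3 : ∀ (C : ι → ι → ℝ) (z : ι → ℝ), ∑ j, ∑ k, z k * C i j * B j k =
      ap C (ap B z) i := by
    intro C z
    unfold ap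
    simp only [mul_sum]
    exact sum_congr rfl fun j _ => sum_congr rfl fun k _ => by ring
  rw [e, a1, a2, a3, a1, a2, a3]
  ring

theorem yt_ten (y w : ι → ℝ) (hw : ∀ i, (m + 2) * w i = 2 * ap A y i) : Ten P (yt P A y w) := by
  have hm := h.pos
  have hPw : ap P w = w := by
    have e : ap P (fun i => (m + 2) * w i) = fun i => (m + 2) * w i := by
      have e2 : (fun i => (m + 2) * w i) = fun i => 2 * ap A y i := funext hw
      rw [e2, ap_smul, h.apPA]
    rw [ap_smul] at e
    funext i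
    have := congrFun e i
    exact mul_left_cancel₀ (by linarith : m + 2 ≠ 0) this
  refine ⟨fun i j k => ?_, fun i j k => ?_, fun i => ?_⟩
  · unfold yt
    rw [h.sym i j, h.psym i j]
    ring
  · unfold yt
    rw [h.sym j k, h.psym j k]
    ring
  · rw [sum_yt h y w P h.psym i, h.frAP, fr_self, h.frPP, h.apAP, h.apPP, hPw]
    have := hw i
    linarith

/-- contraction of the symmetric traceless part -/
theorem ct_yt (y w : ι → ℝ) (i : ι) : ct (yt P A y w) A i =
      1 / 3 * (y i * n2 A + 2 * ap A (ap A y) i) - 2 / 3 * ap A w i := by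
  have e : ct (yt P A y w) A i = ∑ j, ∑ k, yt P A y w i j k * A j k := rfl
  rw [e, sum_yt h y w A h.sym i, fr_self, fr_comm P A, h.frAP, h.apPA]
  ring

/-- squared norm of the symmetric traceless part, multiplied by `m + 2` -/
theorem n3_yt (y w : ι → ℝ) (hw : ∀ i, (m + 2) * w i = 2 * ap A y i) :
    3 * (m + 2) * n3 (yt P A y w) =
      (m + 2) * (n2 A * v2 y) + 2 * m * v2 (ap A y) := by
  have e1 : n3 (yt P A y w) = ip y (ct (yt P A y w) A) := by
    rw [← inner_yt (yt_ten h y w hw) A y w]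
    unfold n3
    exact sum_congr rfl fun i _ => sum_congr rfl fun j _ => sum_congr rfl fun k _ => by ring
  have e2 : ip y (ct (yt P A y w) A) =
      1 / 3 * (n2 A * v2 y + 2 * ip y (ap A (ap A y))) - 2 / 3 * ip y (ap A w) := by
    have : ip y (ct (yt P A y w) A) = ∑ i, y i * (1 / 3 * (y i * n2 A + 2 * ap A (ap A y) i) -
        2 / 3 * ap A w i) := by
      unfold ip
      exact sum_congr rfl fun i _ => by rw [ct_yt h]
    rw [this]
    unfold ip v2
    simp only [mul_sum, ← sum_add_distrib, ← sum_sub_distrib]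
    exact sum_congr rfl fun i _ => by ring
  have e3 : (m + 2) * ip y (ap A w) = 2 * v2 (ap A y) := by
    rw [ip_ap h.sym]
    unfold ip v2
    simp only [mul_sum]
    refine sum_congr rfl fun i _ => ?_
    have := hw i
    calc (m + 2) * (ap A y i * w i)
        = ap A y i * ((m + 2) * w i) := by ring
      _ = 2 * ap A y i ^ 2 := by rw [this]; ring
  rw [e1, e2, ip_ap h.sym y, ip_self]
  linear_combination (-2 : ℝ) * e3

omit h in
theorem v2_comb (a b : ℝ) (x y : ι → ℝ) :
    v2 (fun i => a * x i - b * y i) = a ^ 2 * v2 x - 2 * (a * b) * ip x y + b ^ 2 * v2 y := by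
  unfold v2 ip
  simp only [mul_sum, ← sum_add_distrib, ← sum_sub_distrib]
  exact sum_congr rfl fun i _ => by ring

omit h in
theorem ap_comb (A : ι → ι → ℝ) (a b : ℝ) (x y : ι → ℝ) :
    ap A (fun i => a * x i - b * y i) = fun i => a * ap A x i - b * ap A y i := by
  funext i
  unfold ap
  simp only [mul_sum, ← sum_sub_distrib]
  exact sum_congr rfl fun j _ => by ring

/-- the refined Kato inequality -/
theorem kato {T : ι → ι → ι → ℝ} (hT : Ten P T) (z : ι → ℝ) :
    2 * ip z (ct T A) - (n2 A * v2 z + 2 * m / (m + 2) * v2 (ap A z)) / 3 ≤ n3 T := by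
  have hm := h.pos
  set w : ι → ℝ := fun i => 2 / (m + 2) * ap A z i with hw
  have hm2 : 0 < m + 2 := by linarith
  have hw' : ∀ i, (m + 2) * w i = 2 * ap A z i := by
    intro i
    simp only [hw]
    field_simp
  have e1 := inner_yt hT A z w
  have e2 := n3_yt h z w hw'
  have h3 := n3_nonneg (fun i j k => T i j k - yt P A z w i j k)
  have e3 : n3 (fun i j k => T i j k - yt P A z w i j k) =
      n3 T - 2 * (∑ i, ∑ j, ∑ k, T i j k * yt P A z w i j k) + n3 (yt P A z w) := by
    unfold n3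
    simp only [mul_sum, ← sum_add_distrib, ← sum_sub_distrib]
    exact sum_congr rfl fun i _ => sum_congr rfl fun j _ => sum_congr rfl fun k _ => by ring
  rw [e3, e1] at h3
  have e4 : n3 (yt P A z w) = (n2 A * v2 z + 2 * m / (m + 2) * v2 (ap A z)) / 3 := by
    field_simp
    linarith
  rw [e4] at h3
  linarith

end tan2

end IdxLinK
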