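import Mathlib

/-! Linear algebra for MP_fbfa44_gt: the pointwise inequality of step 5, ambient indices. -/

set_option autoImplicit false

namespace IdxLinP

open Finset

variable {ι : Type*} [Fintype ι]

/-- squared norm of a matrix -/
def n2 (A : ι → ι → ℝ) : ℝ := ∑ i, ∑ j, A i j ^ 2

/-- squared norm of a vector -/
def v2 (x : ι → ℝ) : ℝ := ∑ i, x i ^ 2

/-- inner product of vectors -/
def ip (x y : ι → ℝ) : ℝ := ∑ i, x i * y i

/-- the matrix applied to a vector -/
def ap (A : ι → ι → ℝ) (x : ι → ℝ) (i : ι) : ℝ := ∑ j, A i j * x j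

/-- squared norm of a 3-tensor -/
def n3 (T : ι → ι → ι → ℝ) : ℝ := ∑ i, ∑ j, ∑ k, T i j k ^ 2

/-- contraction of a 3-tensor with a matrix -/
def ct (T : ι → ι → ι → ℝ) (A : ι → ι → ℝ) (i : ι) : ℝ := ∑ j, ∑ k, T i j k * A j k

theorem v2_nonneg (x : ι → ℝ) : 0 ≤ v2 x := sum_nonneg fun _ _ => sq_nonneg _
theorem n2_nonneg (A : ι → ι → ℝ) : 0 ≤ n2 A :=
  sum_nonneg fun _ _ => sum_nonneg fun _ _ => sq_nonneg _
theorem n3_nonneg (T : ι → ι → ι → ℝ) : 0 ≤ n3 T :=
  sum_nonneg fun _ _ => sum_nonneg fun _ _ => sum_nonneg fun _ _ => sq_nonneg _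

theorem ip_self (x : ι → ℝ) : ip x x = v2 x := by
  unfold ip v2
  exact sum_congr rfl fun i _ => by ring

theorem ip_comm (x y : ι → ℝ) : ip x y = ip y x := by
  unfold ip
  exact sum_congr rfl fun i _ => by ring

/-- symmetric matrices are self-adjoint -/
theorem ip_ap {A : ι → ι → ℝ} (hA : ∀ i j, A i j = A j i) (x y : ι → ℝ) :
    ip x (ap A y) = ip (ap A x) y := by
  unfold ip ap
  simp only [mul_sum, sum_mul]
  rw [sum_comm]
  exact sum_congr rfl fun i _ => sum_congr rfl fun j _ => by rw [hA j i]; ring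

/-! ### Matrices -/

/-- inner product of matrices -/
def fr (A B : ι → ι → ℝ) : ℝ := ∑ i, ∑ j, A i j * B i j

/-- outer product -/
def ot (x y : ι → ℝ) (i j : ι) : ℝ := x i * y j

theorem fr_ot (A : ι → ι → ℝ) (x y : ι → ℝ) : fr A (ot x y) = ip x (ap A y) := by
  unfold fr ot ip ap
  simp only [mul_sum]
  exact sum_congr rfl fun i _ => sum_congr rfl fun j _ => by ring

theorem fr_ot_ot (x y z w : ι → ℝ) : fr (ot x y) (ot z w) = ip x z * ip y w := by
  unfold fr ot ip
  rw [sum_mul_sum]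
  exact sum_congr rfl fun i _ => sum_congr rfl fun j _ => by ring

theorem n2_ot (x y : ι → ℝ) : n2 (ot x y) = v2 x * v2 y := by
  rw [← ip_self x, ← ip_self y, ← fr_ot_ot]
  unfold n2 fr
  exact sum_congr rfl fun i _ => sum_congr rfl fun j _ => by ring

theorem fr_comm (A B : ι → ι → ℝ) : fr A B = fr B A := by
  unfold fr
  exact sum_congr rfl fun i _ => sum_congr rfl fun j _ => by ring

theorem fr_self (A : ι → ι → ℝ) : fr A A = n2 A := by
  unfold fr n2
  exact sum_congr rfl fun i _ => sum_congr rfl fun j _ => by ring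

theorem n2_expand (A B C D F : ι → ι → ℝ) (a e : ℝ) :
    n2 (fun i j => A i j - (a * B i j + C i j + D i j - e * F i j)) =
      n2 A + a ^ 2 * n2 B + n2 C + n2 D + e ^ 2 * n2 F - 2 * a * fr A B - 2 * fr A C -
        2 * fr A D + 2 * e * fr A F + 2 * a * fr B C + 2 * a * fr B D - 2 * a * e * fr F B +
        2 * fr C D - 2 * e * fr F C - 2 * e * fr F D := by
  unfold n2 fr
  simp only [mul_sum, ← sum_add_distrib, ← sum_sub_distrib]
  exact sum_congr rfl fun i _ => sum_congr rfl fun j _ => by ring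

/-- `A` is a symmetric traceless form on the image of the projection `P`, of dimension `m` -/
structure Tan (P A : ι → ι → ℝ) (m : ℝ) : Prop where
  two : 2 ≤ m
  psym : ∀ i j, P i j = P j i
  pp : ∀ i j, ∑ k, P i k * P k j = P i j
  ptr : ∑ i, P i i = m
  sym : ∀ i j, A i j = A j i
  pa : ∀ i j, ∑ k, P i k * A k j = A i j
  tr : ∑ i, A i i = 0

section tan

variable {P A : ι → ι → ℝ} {m : ℝ} (h : Tan P A m)

include h

theorem Tan.frPP : n2 P = m := by
  rw [← h.ptr]
  unfold n2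
  refine sum_congr rfl fun i _ => ?_
  rw [← h.pp i i]
  exact sum_congr rfl fun j _ => by rw [h.psym j i]; ring

theorem Tan.frAP : fr A P = 0 := by
  rw [← h.tr]
  unfold fr
  refine sum_congr rfl fun i _ => ?_
  rw [← h.pa i i]
  exact sum_congr rfl fun j _ => by rw [h.sym i j]; ring

/-- `P (A y) = A y` -/
theorem Tan.apPA (y : ι → ℝ) : ap P (ap A y) = ap A y := by
  funext i
  unfold ap
  simp only [mul_sum]
  rw [sum_comm]
  refine sum_congr rfl fun k _ => ?_
  rw [← h.pa i k, sum_mul]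
  exact sum_congr rfl fun j _ => by ring

/-- `A (P y) = A y` -/
theorem Tan.apAP (y : ι → ℝ) : ap A (ap P y) = ap A y := by
  funext i
  unfold ap
  simp only [mul_sum]
  rw [sum_comm]
  refine sum_congr rfl fun k _ => ?_
  rw [h.sym i k, ← h.pa k i, sum_mul]
  exact sum_congr rfl fun j _ => by rw [h.psym j k, h.sym i j]; ring

theorem Tan.apPP (y : ι → ℝ) : ap P (ap P y) = ap P y := by
  funext i
  unfold ap
  simp only [mul_sum]
  rw [sum_comm]
  refine sum_congr rfl fun k _ => ?_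
  rw [← h.pp i k, sum_mul]
  exact sum_congr rfl fun j _ => by ring

/-- the operator norm of a traceless symmetric matrix, unit vectors -/
theorem v2_ap_le_unit {x : ι → ℝ} (hx : v2 x = 1) (hPx : ap P x = x) :
    m * v2 (ap A x) ≤ (m - 1) * n2 A := by
  set b := ap A x with hb
  have hPb : ap P b = b := h.apPA x
  set al := ip x b with hal
  set be := al / (m - 1) with hbe
  have hm := h.two
  have hm1 : 0 < m - 1 := by linarith
  have hbe1 : be * (m - 1) = al := by rw [hbe]; field_simp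
  have h0 := n2_nonneg (fun i j => A i j -
    ((be - al) * ot x x i j + ot x b i j + ot b x i j - be * P i j))
  rw [n2_expand, n2_ot, n2_ot, n2_ot, h.frPP, fr_ot, fr_ot, fr_ot, h.frAP, fr_ot_ot, fr_ot_ot,
    fr_ot, fr_ot_ot, fr_ot, fr_ot, hx, ← hb, ← hal, ip_self, ip_self, hx,
    ip_ap h.sym, ← hb, ip_self, hPx, hPb, ip_self, hx, ip_comm b x, ← hal] at h0
  -- the Cauchy-Schwarz inequality
  have hcs : al ^ 2 ≤ v2 b := by
    have := sum_mul_sq_le_sq_mul_sq univ x b
    have e : (∑ i, x i ^ 2) = 1 := hx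
    rw [e, one_mul] at this
    exact this
  have h2 : 0 ≤ v2 b := v2_nonneg b
  nlinarith [mul_le_mul_of_nonneg_left hcs (by linarith : (0 : ℝ) ≤ m - 2)]

omit h in
theorem v2_smul (c : ℝ) (x : ι → ℝ) : v2 (fun i => c * x i) = c ^ 2 * v2 x := by
  unfold v2
  rw [mul_sum]
  exact sum_congr rfl fun i _ => by ring

omit h in
theorem ap_smul (A : ι → ι → ℝ) (c : ℝ) (x : ι → ℝ) :
    ap A (fun i => c * x i) = fun i => c * ap A x i := by
  funext i
  unfold ap
  rw [mul_sum]
  exact sum_congr rfl fun i _ => by ring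

omit h in
theorem v2_eq_zero {x : ι → ℝ} (h : v2 x = 0) : x = 0 := by
  unfold v2 at h
  rw [sum_eq_zero_iff_of_nonneg fun i _ => sq_nonneg _] at h
  funext i
  exact pow_eq_zero_iff (two_ne_zero) |>.1 (h i (mem_univ i))

/-- the operator norm of a traceless symmetric matrix, tangential vectors -/
theorem v2_ap_le_tan (x : ι → ℝ) (hPx : ap P x = x) :
    m * v2 (ap A x) ≤ (m - 1) * n2 A * v2 x := by
  rcases (v2_nonneg x).eq_or_lt with h0 | h0
  · have hx := v2_eq_zero h0.symm
    have e : ap A x = 0 := by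
      rw [hx]
      funext i
      simp [ap]
    rw [← h0, e]
    simp [v2]
  · set c := (Real.sqrt (v2 x))⁻¹ with hc
    have hs : 0 < Real.sqrt (v2 x) := Real.sqrt_pos.2 h0
    have hc2 : c ^ 2 * v2 x = 1 := by
      rw [hc, inv_pow, Real.sq_sqrt h0.le, inv_mul_cancel₀ h0.ne']
    have h1 := v2_ap_le_unit h (x := fun i => c * x i) (by rw [v2_smul, hc2])
      (by rw [ap_smul, hPx])
    rw [ap_smul, v2_smul] at h1
    have h2 := mul_le_mul_of_nonneg_right h1 h0.le
    calc m * v2 (ap A x)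
        = m * (c ^ 2 * v2 (ap A x)) * v2 x := by
          calc _ = m * v2 (ap A x) * (c ^ 2 * v2 x) := by rw [hc2, mul_one]
            _ = _ := by ring
      _ ≤ _ := h2

/-- projections do not increase the norm -/
theorem v2_apP_le (x : ι → ℝ) : v2 (ap P x) ≤ v2 x := by
  have h1 := v2_nonneg (fun i => 1 * x i - 1 * ap P x i)
  have e : v2 (fun i => 1 * x i - 1 * ap P x i) = v2 x - 2 * ip x (ap P x) + v2 (ap P x) := by
    unfold v2 ip
    simp only [mul_sum, ← sum_add_distrib, ← sum_sub_distrib]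
    exact sum_congr rfl fun i _ => by ring
  have e2 : ip x (ap P x) = v2 (ap P x) := by
    have h2 : ip x (ap P (ap P x)) = ip (ap P x) (ap P x) := ip_ap h.psym x (ap P x)
    rw [h.apPP, ip_self] at h2
    exact h2
  rw [e, e2] at h1
  linarith

/-- the operator norm of a traceless symmetric matrix -/
theorem v2_ap_le (x : ι → ℝ) : m * v2 (ap A x) ≤ (m - 1) * n2 A * v2 x := by
  have h1 := v2_ap_le_tan h (ap P x) (h.apPP x)
  rw [h.apAP] at h1
  have hm := h.two
  have h2 : 0 ≤ (m - 1) * n2 A := mul_nonneg (by linarith) (n2_nonneg A)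
  exact h1.trans (mul_le_mul_of_nonneg_left (v2_apP_le h x) h2)

end tan

/-! ### Tensors -/

/-- the symmetric traceless part of `y ⊗ A`, for `w = 2 A y / (m + 2)` -/
noncomputable def yt (P A : ι → ι → ℝ) (y w : ι → ℝ) (i j k : ι) : ℝ :=
  1 / 3 * (y i * A j k + y j * A i k + y k * A i j) -
    1 / 3 * (w i * P j k + w j * P i k + w k * P i j)

/-- a symmetric tensor whose trace with respect to `P` vanishes -/
structure Ten (P : ι → ι → ℝ) (T : ι → ι → ι → ℝ) : Prop where
  s1 : ∀ i j k, T i j k = T j i k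
  s2 : ∀ i j k, T i j k = T i k j
  tr : ∀ i, ∑ j, ∑ k, T i j k * P j k = 0

/-- inner product with a symmetric traceless tensor -/
theorem inner_yt {P : ι → ι → ℝ} {T : ι → ι → ι → ℝ} (hT : Ten P T) (A : ι → ι → ℝ)
    (y w : ι → ℝ) : ∑ i, ∑ j, ∑ k, T i j k * yt P A y w i j k = ip y (ct T A) := by
  have a1 : ∑ i, ∑ j, ∑ k, T i j k * (y i * A j k) = ip y (ct T A) := by
    unfold ip ct
    simp only [mul_sum]
    exact sum_congr rfl fun i _ => sum_congr rfl fun j _ => sum_congr rfl fun k _ => by ring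
  have a2 : ∑ i, ∑ j, ∑ k, T i j k * (y j * A i k) = ip y (ct T A) := by
    rw [← a1, sum_comm]
    exact sum_congr rfl fun i _ => sum_congr rfl fun j _ => sum_congr rfl fun k _ => by
      rw [hT.s1]
  have a3 : ∑ i, ∑ j, ∑ k, T i j k * (y k * A i j) = ip y (ct T A) := by
    rw [← a2]
    refine sum_congr rfl fun i _ => ?_
    rw [sum_comm]
    exact sum_congr rfl fun j _ => sum_congr rfl fun k _ => by rw [hT.s2]
  have b1 : ∑ i, ∑ j, ∑ k, T i j k * (w i * P j k) = 0 := by
    refine sum_eq_zero fun i _ => ?_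
    have e : ∑ j, ∑ k, T i j k * (w i * P j k) = w i * ∑ j, ∑ k, T i j k * P j k := by
      simp only [mul_sum]
      exact sum_congr rfl fun j _ => sum_congr rfl fun k _ => by ring
    rw [e, hT.tr, mul_zero]
  have b2 : ∑ i, ∑ j, ∑ k, T i j k * (w j * P i k) = 0 := by
    rw [← b1, sum_comm]
    exact sum_congr rfl fun i _ => sum_congr rfl fun j _ => sum_congr rfl fun k _ => by
      rw [hT.s1]
  have b3 : ∑ i, ∑ j, ∑ k, T i j k * (w k * P i j) = 0 := by
    rw [← b2]
    refine sum_congr rfl fun i _ => ?_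
    rw [sum_comm]
    exact sum_congr rfl fun j _ => sum_congr rfl fun k _ => by rw [hT.s2]
  have e : ∑ i, ∑ j, ∑ k, T i j k * yt P A y w i j k =
      1 / 3 * (∑ i, ∑ j, ∑ k, T i j k * (y i * A j k) + ∑ i, ∑ j, ∑ k, T i j k * (y j * A i k) +
        ∑ i, ∑ j, ∑ k, T i j k * (y k * A i j)) -
      1 / 3 * (∑ i, ∑ j, ∑ k, T i j k * (w i * P j k) +
        ∑ i, ∑ j, ∑ k, T i j k * (w j * P i k) + ∑ i, ∑ j, ∑ k, T i j k * (w k * P i j)) := by
    simp only [mul_sum, ← sum_add_distrib, ← sum_sub_distrib]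
    exact sum_congr rfl fun i _ => sum_congr rfl fun j _ => sum_congr rfl fun k _ => by
      unfold yt; ring
  rw [e, a1, a2, a3, b1, b2, b3]
  ring

section tan2

variable {P A : ι → ι → ℝ} {m : ℝ} (h : Tan P A m)

include h

/-- contraction of the symmetric traceless part with a symmetric form `B` -/
theorem sum_yt (y w : ι → ℝ) (B : ι → ι → ℝ) (hB : ∀ i j, B i j = B j i) (i : ι) :
    ∑ j, ∑ k, yt P A y w i j k * B j k =
      1 / 3 * (y i * fr A B + 2 * ap A (ap B y) i) -
      1 / 3 * (w i * fr P B + 2 * ap P (ap B w) i) := by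
  have hA := h.sym
  have hP := h.psym
  have e : ∑ j, ∑ k, yt P A y w i j k * B j k = 1 / 3 * (∑ j, ∑ k, y i * A j k * B j k +
      ∑ j, ∑ k, y j * A i k * B j k + ∑ j, ∑ k, y k * A i j * B j k) -
      1 / 3 * (∑ j, ∑ k, w i * P j k * B j k + ∑ j, ∑ k, w j * P i k * B j k +
        ∑ j, ∑ k, w k * P i j * B j k) := by
    simp only [mul_sum, ← sum_add_distrib, ← sum_sub_distrib]
    exact sum_congr rfl fun j _ => sum_congr rfl fun k _ => by unfold yt; ring
  have a1 : ∀ (C : ι → ι → ℝ) (z : ι → ℝ), ∑ j, ∑ k, z i * C j k * B j k = z i * fr C B := by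
    intro C z
    unfold fr
    simp only [mul_sum]
    exact sum_congr rfl fun j _ => sum_congr rfl fun k _ => by ring
  have a2 : ∀ (C : ι → ι → ℝ) (z : ι → ℝ), ∑ j, ∑ k, z j * C i k * B j k =
      ap C (ap B z) i := by
    intro C z
    unfold ap
    simp only [mul_sum]
    rw [sum_comm]
    exact sum_congr rfl fun j _ => sum_congr rfl fun k _ => by rw [hB k j]; ring
  have a3 : ∀ (C : ι → ι → ℝ) (z : ι → ℝ), ∑ j, ∑ k, z k * C i j * B j k =
      ap C (ap B z) i := by
    intro C z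
    unfold ap
    simp only [mul_sum]
    exact sum_congr rfl fun j _ => sum_congr rfl fun k _ => by ring
  rw [e, a1, a2, a3, a1, a2, a3]
  ring

theorem yt_ten (y w : ι → ℝ) (hw : ∀ i, (m + 2) * w i = 2 * ap A y i) : Ten P (yt P A y w) := by
  have hm := h.two
  have hPw : ap P w = w := by
    have e : ap P (fun i => (m + 2) * w i) = fun i => (m + 2) * w i := by
      have e2 : (fun i => (m + 2) * w i) = fun i => 2 * ap A y i := funext hw
      rw [e2, ap_smul, h.apPA]
    rw [ap_smul] at e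
    funext i
    have := congrFun e i
    exact mul_left_cancel₀ (by linarith : m + 2 ≠ 0) this
  refine ⟨fun i j k => ?_, fun i j k => ?_, fun i => ?_⟩
  · unfold yt
    rw [h.sym i j, h.psym i j]
    ring
  · unfold yt
    rw [h.sym j k, h.psym j k]
    ring
  · rw [sum_yt h y w P h.psym i, h.frAP, fr_self, h.frPP, h.apAP, h.apPP, hPw]
    have := hw i
    linarith

/-- contraction of the symmetric traceless part -/
theorem ct_yt (y w : ι → ℝ) (i : ι) : ct (yt P A y w) A i =
      1 / 3 * (y i * n2 A + 2 * ap A (ap A y) i) - 2 / 3 * ap A w i := by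
  have e : ct (yt P A y w) A i = ∑ j, ∑ k, yt P A y w i j k * A j k := rfl
  rw [e, sum_yt h y w A h.sym i, fr_self, fr_comm P A, h.frAP, h.apPA]
  ring

/-- squared norm of the symmetric traceless part, multiplied by `m + 2` -/
theorem n3_yt (y w : ι → ℝ) (hw : ∀ i, (m + 2) * w i = 2 * ap A y i) :
    3 * (m + 2) * n3 (yt P A y w) =
      (m + 2) * (n2 A * v2 y) + 2 * m * v2 (ap A y) := by
  have e1 : n3 (yt P A y w) = ip y (ct (yt P A y w) A) := by
    rw [← inner_yt (yt_ten h y w hw) A y w]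
    unfold n3
    exact sum_congr rfl fun i _ => sum_congr rfl fun j _ => sum_congr rfl fun k _ => by ring
  have e2 : ip y (ct (yt P A y w) A) =
      1 / 3 * (n2 A * v2 y + 2 * ip y (ap A (ap A y))) - 2 / 3 * ip y (ap A w) := by
    have : ip y (ct (yt P A y w) A) = ∑ i, y i * (1 / 3 * (y i * n2 A + 2 * ap A (ap A y) i) -
        2 / 3 * ap A w i) := by
      unfold ip
      exact sum_congr rfl fun i _ => by rw [ct_yt h]
    rw [this]
    unfold ip v2
    simp only [mul_sum, ← sum_add_distrib, ← sum_sub_distrib]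
    exact sum_congr rfl fun i _ => by ring
  have e3 : (m + 2) * ip y (ap A w) = 2 * v2 (ap A y) := by
    rw [ip_ap h.sym]
    unfold ip v2
    simp only [mul_sum]
    refine sum_congr rfl fun i _ => ?_
    have := hw i
    calc (m + 2) * (ap A y i * w i)
        = ap A y i * ((m + 2) * w i) := by ring
      _ = 2 * ap A y i ^ 2 := by rw [this]; ring
  rw [e1, e2, ip_ap h.sym y, ip_self]
  linear_combination (-2 : ℝ) * e3

omit h in
theorem v2_comb (a b : ℝ) (x y : ι → ℝ) :
    v2 (fun i => a * x i - b * y i) = a ^ 2 * v2 x - 2 * (a * b) * ip x y + b ^ 2 * v2 y := by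
  unfold v2 ip
  simp only [mul_sum, ← sum_add_distrib, ← sum_sub_distrib]
  exact sum_congr rfl fun i _ => by ring

omit h in
theorem ap_comb (A : ι → ι → ℝ) (a b : ℝ) (x y : ι → ℝ) :
    ap A (fun i => a * x i - b * y i) = fun i => a * ap A x i - b * ap A y i := by
  funext i
  unfold ap
  simp only [mul_sum, ← sum_sub_distrib]
  exact sum_congr rfl fun j _ => by ring

/-- the lower bound for the norm of a symmetric traceless tensor -/
theorem n3_lower {T : ι → ι → ι → ℝ} (hT : Ten P T) :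
    (6 * m * (m + 2) - (m + 2) ^ 2) * (n2 A * v2 (ct T A)) -
      2 * m * (m + 2) * v2 (ap A (ct T A)) ≤ 3 * m ^ 2 * (n2 A ^ 2 * n3 T) := by
  have hm := h.two
  set q := ct T A with hq
  set w : ι → ℝ := fun i => 2 / (m + 2) * ap A q i with hw
  have hm2 : 0 < m + 2 := by linarith
  have hw' : ∀ i, (m + 2) * w i = 2 * ap A q i := by
    intro i
    simp only [hw]
    field_simp
  have e1 := inner_yt hT A q w
  have e2 := n3_yt h q w hw'
  rw [← hq, ip_self] at e1
  -- the square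
  have h := n3_nonneg (fun i j k => m * n2 A * T i j k - (m + 2) * yt P A q w i j k)
  have e3 : n3 (fun i j k => m * n2 A * T i j k - (m + 2) * yt P A q w i j k) =
      m ^ 2 * (n2 A ^ 2 * n3 T) - 2 * (m * (m + 2)) * (n2 A *
        ∑ i, ∑ j, ∑ k, T i j k * yt P A q w i j k) + (m + 2) ^ 2 * n3 (yt P A q w) := by
    unfold n3
    generalize n2 A = a
    simp only [mul_sum, ← sum_add_distrib, ← sum_sub_distrib]
    exact sum_congr rfl fun i _ => sum_congr rfl fun j _ => sum_congr rfl fun k _ => by ring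
  rw [e3, e1] at h
  have e4 : 3 * ((m + 2) ^ 2 * n3 (yt P A q w)) =
      (m + 2) * ((m + 2) * (n2 A * v2 q) + 2 * m * v2 (ap A q)) := by
    rw [← e2]; ring
  nlinarith

omit h in
/-- the quadratic form -/
theorem form_identity (m a c u Q X W Q' X' W' : ℝ) (hc : c = 2 * m ^ 2 + 8 * m - 4) :
    (m - 1) * c * (a * (c * (u ^ 2 * Q) - 12 * m ^ 2 * (u * a * X) +
        3 * m ^ 2 * (m + 1) * (a ^ 2 * W)) - 2 * m * (m + 2) * (u ^ 2 * Q') +
        3 * m ^ 3 * (a ^ 2 * W')) =
      ((m - 1) * a * ((c * u) ^ 2 * Q - 2 * (c * u * (6 * m ^ 2 * a)) * X +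
        (6 * m ^ 2 * a) ^ 2 * W) - m * ((c * u) ^ 2 * Q' -
          2 * (c * u * (6 * m ^ 2 * a)) * X' + (6 * m ^ 2 * a) ^ 2 * W')) +
      6 * m ^ 2 * (m - 1) * (m ^ 2 + 2) * a ^ 2 * ((m - 1) * a * W - m * W') +
      6 * m ^ 2 * c * (u ^ 2 * Q' - 2 * (u * (m * a)) * X' + (m * a) ^ 2 * W') := by
  rw [hc]; ring

/-- **The pointwise inequality.** -/
theorem pointwise {T : ι → ι → ι → ℝ} (hT : Ten P T) (w : ι → ℝ) (u : ℝ) :
    u ^ 2 * v2 (ct T A) ≤ n2 A * (u ^ 2 * n3 T - 4 * u * ip (ct T A) w +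
      (m + 1) * n2 A * v2 w + m * v2 (ap A w)) := by
  have hm := h.two
  set q := ct T A with hq
  rcases (n2_nonneg A).eq_or_lt with h0 | h0
  · -- `A = 0`
    have hA0 : ∀ i j, A i j = 0 := by
      intro i j
      have h4 := (sum_eq_zero_iff_of_nonneg fun i _ => sum_nonneg fun j _ => sq_nonneg _).1
        h0.symm i (mem_univ i)
      have h5 := (sum_eq_zero_iff_of_nonneg fun j _ => sq_nonneg _).1 h4 j (mem_univ j)
      exact pow_eq_zero_iff (two_ne_zero) |>.1 h5
    have hq0 : v2 q = 0 := by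
      unfold v2
      refine sum_eq_zero fun i _ => ?_
      have : q i = 0 := by
        rw [hq]
        unfold ct
        exact sum_eq_zero fun j _ => sum_eq_zero fun k _ => by rw [hA0 j k, mul_zero]
      rw [this]
      norm_num
    rw [← h0, hq0]
    simp
  · set a := n2 A with ha
    have hl := n3_lower h hT
    rw [← hq, ← ha] at hl
    set c : ℝ := 2 * m ^ 2 + 8 * m - 4 with hc
    have hc0 : 0 < c := by nlinarith
    -- the two semidefinite estimates
    have t1 := v2_ap_le h (fun i => (c * u) * q i - (6 * m ^ 2 * a) * w i)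
    have t2 := v2_ap_le h w
    rw [ap_comb, v2_comb, v2_comb, ← ha] at t1
    rw [← ha] at t2
    -- the square
    have t3 := v2_nonneg (fun i => u * ap A q i - (m * a) * ap A w i)
    rw [v2_comb] at t3
    set Q := v2 q
    set X := ip q w
    set W := v2 w
    set Q' := v2 (ap A q)
    set X' := ip (ap A q) (ap A w)
    set W' := v2 (ap A w)
    have hm1 : 0 < m - 1 := by linarith
    -- the lower bound of `3 m² a` times the difference
    have key : 0 ≤ (m - 1) * c * (a * (c * (u ^ 2 * Q) - 12 * m ^ 2 * (u * a * X) +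
        3 * m ^ 2 * (m + 1) * (a ^ 2 * W)) - 2 * m * (m + 2) * (u ^ 2 * Q') +
        3 * m ^ 3 * (a ^ 2 * W')) := by
      rw [form_identity m a c u Q X W Q' X' W' hc]
      have p1 : 0 ≤ 6 * m ^ 2 * (m - 1) * (m ^ 2 + 2) * a ^ 2 := by positivity
      have p2 : 0 ≤ 6 * m ^ 2 * c := by positivity
      have s1 := mul_nonneg p1 (by linarith : 0 ≤ (m - 1) * a * W - m * W')
      have s2 := mul_nonneg p2 t3
      linarith
    have key2 := nonneg_of_mul_nonneg_right key (by positivity)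
    -- conclusion
    have hfin : 0 ≤ (3 * m ^ 2 * a) * (a * (u ^ 2 * n3 T - 4 * u * X +
      (m + 1) * a * W + m * W') - u ^ 2 * Q) := by
      have hl2 := mul_le_mul_of_nonneg_left hl (sq_nonneg u)
      have e : (3 * m ^ 2 * a) * (a * (u ^ 2 * n3 T - 4 * u * X +
          (m + 1) * a * W + m * W') - u ^ 2 * Q) =
          u ^ 2 * (3 * m ^ 2 * (a ^ 2 * n3 T)) - 12 * m ^ 2 * a ^ 2 * u * X +
            3 * m ^ 2 * (m + 1) * a ^ 3 * W + 3 * m ^ 3 * a ^ 2 * W' -
            3 * m ^ 2 * a * u ^ 2 * Q := by ring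
      rw [e]
      have e2 : a * (c * (u ^ 2 * Q) - 12 * m ^ 2 * (u * a * X) +
        3 * m ^ 2 * (m + 1) * (a ^ 2 * W)) - 2 * m * (m + 2) * (u ^ 2 * Q') +
        3 * m ^ 3 * (a ^ 2 * W') =
        u ^ 2 * ((6 * m * (m + 2) - (m + 2) ^ 2) * (a * Q) - 2 * m * (m + 2) * Q') -
          12 * m ^ 2 * a ^ 2 * u * X +
            3 * m ^ 2 * (m + 1) * a ^ 3 * W + 3 * m ^ 3 * a ^ 2 * W' -
            3 * m ^ 2 * a * u ^ 2 * Q := by rw [hc]; ring
      rw [e2] at key2
      linarith
    have := nonneg_of_mul_nonneg_right hfin (by positivity)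
    linarith

/-- the quadratic form `(m - 1) |A|² |x|² - m |A x|²` -/
def th (m : ℝ) (A : ι → ι → ℝ) (x : ι → ℝ) : ℝ := (m - 1) * n2 A * v2 x - m * v2 (ap A x)

theorem th_nonneg (x : ι → ℝ) : 0 ≤ th m A x := by
  have := v2_ap_le h x
  unfold th
  linarith

/-- **The equality case.** -/
theorem equality {T : ι → ι → ι → ℝ} (hT : Ten P T) (w : ι → ℝ) (u : ℝ) (h0 : 0 < n2 A)
    (heq : n2 A * (u ^ 2 * n3 T - 4 * u * ip (ct T A) w +
      (m + 1) * n2 A * v2 w + m * v2 (ap A w)) ≤ u ^ 2 * v2 (ct T A)) :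
    (∀ i, u * ct T A i = m * n2 A * w i) ∧
      m * v2 (ap A w) = (m - 1) * n2 A * v2 w := by
  have hm := h.two
  set q := ct T A with hq
  set a := n2 A with ha
  have hl := n3_lower h hT
  rw [← hq, ← ha] at hl
  set c : ℝ := 2 * m ^ 2 + 8 * m - 4 with hc
  have hc0 : 0 < c := by nlinarith
  have hm1 : 0 < m - 1 := by linarith
  have hm0 : 0 < m := by linarith
  -- the two semidefinite estimates
  have t1 := th_nonneg h (fun i => (c * u) * q i - (6 * m ^ 2 * a) * w i)
  have t2 := th_nonneg h w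
  have t3 := v2_nonneg (fun i => u * ap A q i - (m * a) * ap A w i)
  have t1e : th m A (fun i => (c * u) * q i - (6 * m ^ 2 * a) * w i) =
      ((m - 1) * a * ((c * u) ^ 2 * v2 q - 2 * (c * u * (6 * m ^ 2 * a)) * ip q w +
        (6 * m ^ 2 * a) ^ 2 * v2 w) - m * ((c * u) ^ 2 * v2 (ap A q) -
          2 * (c * u * (6 * m ^ 2 * a)) * ip (ap A q) (ap A w) +
            (6 * m ^ 2 * a) ^ 2 * v2 (ap A w))) := by
    unfold th
    rw [ap_comb, v2_comb, v2_comb, ← ha]
  have t2e : th m A w = (m - 1) * a * v2 w - m * v2 (ap A w) := by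
    unfold th
    rw [← ha]
  have t3e : v2 (fun i => u * ap A q i - (m * a) * ap A w i) =
      u ^ 2 * v2 (ap A q) - 2 * (u * (m * a)) * ip (ap A q) (ap A w) +
        (m * a) ^ 2 * v2 (ap A w) := v2_comb _ _ _ _
  have hid := form_identity m a c u (v2 q) (ip q w) (v2 w) (v2 (ap A q))
    (ip (ap A q) (ap A w)) (v2 (ap A w)) hc
  rw [← t1e, ← t2e, ← t3e] at hid
  -- the whole expression vanishes
  have hN : 0 ≤ u ^ 2 * (3 * m ^ 2 * (a ^ 2 * n3 T) -
      ((6 * m * (m + 2) - (m + 2) ^ 2) * (a * v2 q) - 2 * m * (m + 2) * v2 (ap A q))) :=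
    mul_nonneg (sq_nonneg u) (by linarith)
  have hfin : (a * (c * (u ^ 2 * v2 q) - 12 * m ^ 2 * (u * a * ip q w) +
        3 * m ^ 2 * (m + 1) * (a ^ 2 * v2 w)) - 2 * m * (m + 2) * (u ^ 2 * v2 (ap A q)) +
        3 * m ^ 3 * (a ^ 2 * v2 (ap A w))) ≤ 0 := by
    have e1 : (a * (c * (u ^ 2 * v2 q) - 12 * m ^ 2 * (u * a * ip q w) +
        3 * m ^ 2 * (m + 1) * (a ^ 2 * v2 w)) - 2 * m * (m + 2) * (u ^ 2 * v2 (ap A q)) +
        3 * m ^ 3 * (a ^ 2 * v2 (ap A w))) =
        3 * m ^ 2 * a * (a * (u ^ 2 * n3 T - 4 * u * ip q w +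
          (m + 1) * a * v2 w + m * v2 (ap A w)) - u ^ 2 * v2 q) -
        u ^ 2 * (3 * m ^ 2 * (a ^ 2 * n3 T) -
      ((6 * m * (m + 2) - (m + 2) ^ 2) * (a * v2 q) - 2 * m * (m + 2) * v2 (ap A q))) := by
      rw [hc]; ring
    rw [e1]
    have e2 : 3 * m ^ 2 * a * (a * (u ^ 2 * n3 T - 4 * u * ip q w +
          (m + 1) * a * v2 w + m * v2 (ap A w)) - u ^ 2 * v2 q) ≤ 0 :=
      mul_nonpos_of_nonneg_of_nonpos (by positivity) (by linarith)
    linarith
  have hfin2 : (m - 1) * c * (a * (c * (u ^ 2 * v2 q) - 12 * m ^ 2 * (u * a * ip q w) +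
        3 * m ^ 2 * (m + 1) * (a ^ 2 * v2 w)) - 2 * m * (m + 2) * (u ^ 2 * v2 (ap A q)) +
        3 * m ^ 3 * (a ^ 2 * v2 (ap A w))) ≤ 0 :=
    mul_nonpos_of_nonneg_of_nonpos (by positivity) hfin
  rw [hid] at hfin2
  have p1 : 0 < 6 * m ^ 2 * (m - 1) * (m ^ 2 + 2) * a ^ 2 := by positivity
  have p2 : 0 < 6 * m ^ 2 * c := by positivity
  have s1 := mul_nonneg p1.le t2
  have s2 := mul_nonneg p2.le t3
  have z1 : th m A (fun i => (c * u) * q i - (6 * m ^ 2 * a) * w i) = 0 := by linarith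
  have z2 : th m A w = 0 := by
    have : 6 * m ^ 2 * (m - 1) * (m ^ 2 + 2) * a ^ 2 * th m A w = 0 := by linarith
    exact (mul_eq_zero.1 this).resolve_left p1.ne'
  have z3 : v2 (fun i => u * ap A q i - (m * a) * ap A w i) = 0 := by
    have : 6 * m ^ 2 * c * v2 (fun i => u * ap A q i - (m * a) * ap A w i) = 0 := by linarith
    exact (mul_eq_zero.1 this).resolve_left p2.ne'
  -- the parallelogram law
  have hpar : ∀ x y : ι → ℝ, ∀ k : ℝ, th m A (fun i => 1 * x i - (-k) * y i) +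
      th m A (fun i => 1 * x i - k * y i) = 2 * th m A x + 2 * k ^ 2 * th m A y := by
    intro x y k
    unfold th
    simp only [ap_comb, v2_comb]
    ring
  set y : ι → ℝ := fun i => (c * u) * q i - (6 * m ^ 2 * a) * w i with hy
  have z4 := hpar y w ((6 * m ^ 2 - c * m) * a)
  rw [z1, z2] at z4
  have z5 : th m A (fun i => 1 * y i - (-((6 * m ^ 2 - c * m) * a)) * w i) = 0 := by
    have g1 := th_nonneg h (fun i => 1 * y i - (-((6 * m ^ 2 - c * m) * a)) * w i)
    have g2 := th_nonneg h (fun i => 1 * y i - ((6 * m ^ 2 - c * m) * a) * w i)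
    linarith
  have e6 : (fun i => 1 * y i - (-((6 * m ^ 2 - c * m) * a)) * w i) =
      fun i => c * (u * q i - (m * a) * w i) := by
    funext i
    simp only [hy]
    ring
  rw [e6] at z5
  have e7 : ap A (fun i => c * (u * q i - (m * a) * w i)) =
      fun i => c * (u * ap A q i - (m * a) * ap A w i) := by
    rw [ap_smul A c (fun i => u * q i - (m * a) * w i), ap_comb]
  unfold th at z5
  rw [e7, v2_smul, v2_smul, z3, ← ha] at z5
  have z6 : v2 (fun i => u * q i - (m * a) * w i) = 0 := by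
    have e8 : (m - 1) * a * c ^ 2 * v2 (fun i => u * q i - (m * a) * w i) = 0 := by
      linarith
    exact (mul_eq_zero.1 e8).resolve_left (by positivity)
  refine ⟨fun i => ?_, ?_⟩
  · have := congrFun (v2_eq_zero z6) i
    simp only [Pi.zero_apply] at this
    linarith
  · rw [t2e] at z2
    linarith

end tan2

end IdxLinP
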